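import Pool.Agent.H878R2.Cov.Roll2

/-!
# Covariogram determination among ALL convex bodies, for bodies with the two rolling properties
-/

namespace Pool.Agent.Results.MP_177351_gt.RollingBodies

open MeasureTheory Set Topology Metric
open scoped Pointwise

/-- A ball of radius `r` rolls freely inside `K`: every boundary point of `K` lies on the boundary
sphere of a closed ball of radius `r` which is contained in `K`. -/
def BallRollsInside {n : ℕ} (r : ℝ) (K : Set (EuclideanSpace ℝ (Fin n))) : Prop :=
  ∀ p ∈ frontier K, ∃ c : EuclideanSpace ℝ (Fin n), dist p c = r ∧ closedBall c r ⊆ K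

/-- `K` rolls freely inside a ball of radius `R`: every boundary point of `K` lies on the boundary
sphere of a closed ball of radius `R` which contains `K`. -/
def RollsInsideBall {n : ℕ} (R : ℝ) (K : Set (EuclideanSpace ℝ (Fin n))) : Prop :=
  ∀ p ∈ frontier K, ∃ c : EuclideanSpace ℝ (Fin n), dist p c = R ∧ K ⊆ closedBall c R

/-- `K` is directly indecomposable: whenever `K = L + M` with compact convex sets `L`, `M` lying in
complementary linear subspaces, `L` or `M` has at most one point. -/
def DirectlyIndecomposable {n : ℕ} (K : Set (EuclideanSpace ℝ (Fin n))) : Prop :=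
  ∀ (U W : Submodule ℝ (EuclideanSpace ℝ (Fin n))), IsCompl U W →
    ∀ (L M : Set (EuclideanSpace ℝ (Fin n))), IsCompact L → Convex ℝ L → IsCompact M → Convex ℝ M →
      L ⊆ (U : Set (EuclideanSpace ℝ (Fin n))) → M ⊆ (W : Set (EuclideanSpace ℝ (Fin n))) →
      K = L + M → L.Subsingleton ∨ M.Subsingleton

/-- `K` is determined by its covariogram among all compact convex sets (with or without interior
points): every compact convex `H` with `g_H = g_K` is a translate of `K` or of `-K`. -/
def DeterminedByCovariogram {n : ℕ} (K : Set (EuclideanSpace ℝ (Fin n))) : Prop :=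
  ∀ H : Set (EuclideanSpace ℝ (Fin n)), IsCompact H → Convex ℝ H →
    (∀ x, (volume (H ∩ (fun y => y + x) '' H)).toReal =
      (volume (K ∩ (fun y => y + x) '' K)).toReal) →
    ∃ z : EuclideanSpace ℝ (Fin n), H = (fun x => x + z) '' K ∨ H = (fun x => -x + z) '' K

/-- For every `n ≥ 3`: let `K ⊆ ℝⁿ` be a convex body such that some ball rolls
freely inside `K` and `K` rolls freely inside some ball (no differentiability assumed beyond this).
Then `K` is directly indecomposable and `K` is determined by its covariogram among ALL convex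
bodies, up to translation and reflection. -/
theorem result (n : ℕ) (hn : 3 ≤ n) (K : Set (EuclideanSpace ℝ (Fin n)))
    (hK1 : IsCompact K) (hK2 : Convex ℝ K) (hK3 : (interior K).Nonempty)
    (r R : ℝ) (hr : 0 < r) (hR : 0 < R) (hin : BallRollsInside r K) (hout : RollsInsideBall R K) :
    DirectlyIndecomposable K ∧ DeterminedByCovariogram K := by
  have hreg := Pool.Agent.H878R2.Cov.roll_reg hK1 hK2 hK3 hr hR hin hout
  refine ⟨Pool.Agent.H878R2.Cov.reg_indec hreg, ?_⟩
  intro H hHc hHv hg
  have hi := Pool.Agent.H878R2.Cov.cov_int hreg hHc hHv (fun x => (hg x).symm)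
  exact Pool.Agent.H878R2.Cov.fin_all (by omega) hreg hHc hHv hi (fun x => (hg x).symm)

/-- The class is larger than `C^2_+`: every convex body of class `C^2_+` has the two rolling
properties. -/
theorem c2plus_rolls (n : ℕ) (hn : 3 ≤ n) (K : Set (EuclideanSpace ℝ (Fin n)))
    (hK1 : IsCompact K) (hK2 : Convex ℝ K) (hK3 : (interior K).Nonempty)
    (hK4 : ∀ p ∈ frontier K, ∃ ρ : EuclideanSpace ℝ (Fin n) → ℝ,
      ContDiffAt ℝ 2 ρ p ∧ fderiv ℝ ρ p ≠ 0 ∧ (∀ᶠ x in 𝓝 p, x ∈ K ↔ ρ x ≤ 0) ∧
      ∀ w, w ≠ 0 → fderiv ℝ ρ p w = 0 →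
        ∃ w', fderiv ℝ ρ p w' = 0 ∧ fderiv ℝ (fderiv ℝ ρ) p w w' ≠ 0) :
    ∃ r R : ℝ, 0 < r ∧ 0 < R ∧ BallRollsInside r K ∧ RollsInsideBall R K :=
  Pool.Agent.H878R2.Cov.reg_roll (Pool.Agent.H878R2.Cov.reg_c2 (by omega) hK1 hK2 hK3 hK4)

end Pool.Agent.Results.MP_177351_gt.RollingBodies
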